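import Pool.Agent.MP_31805c_co.H47.Fam

/-! The edge bound for bipartite graphs that satisfy the criterion of Mac Lane. -/

namespace Pool.Agent.MP_92a447_co.H47

open Finset
open Pool.Agent.MP_31805c_co.H47 Pool.Agent.MP_31805c_co.H47.FamAux

variable {V : Type} [Fintype V] [DecidableEq V] {G : SimpleGraph V}

theorem four_le (c : V → Bool) (hc : ∀ u v, G.Adj u v → c u ≠ c v) {C : Sym2 V → Z2}
    (hC : ∀ e, C e ≠ 0 → e ∈ G.edgeSet)
    (hev : ∀ v, ∑ w, C s(v, w) = 0) (hne : C ≠ 0) : 4 ≤ {e | C e ≠ 0}.ncard := by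
  have other : ∀ u v, C s(u, v) ≠ 0 → ∃ x, x ≠ v ∧ C s(u, x) ≠ 0 := by
    intro u v h
    by_contra hn
    push Not at hn
    have := hev u
    rw [sum_eq_single v (fun x _ hx => hn x hx) (by simp)] at this
    exact h this
  obtain ⟨e, he⟩ := Function.ne_iff.1 hne
  induction e using Sym2.ind with
  | h u v =>
    have he : C s(u, v) ≠ 0 := he
    obtain ⟨x, hx, h1⟩ := other u v he
    obtain ⟨y, hy, h2⟩ := other v u (Sym2.eq_swap (a := u) (b := v) ▸ he)
    obtain ⟨z, hz, h3⟩ := other x u (Sym2.eq_swap (a := u) (b := x) ▸ h1)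
    have a1 : u ≠ v := SimpleGraph.Adj.ne (hC _ he)
    have a2 : u ≠ x := SimpleGraph.Adj.ne (hC _ h1)
    have a3 : v ≠ y := SimpleGraph.Adj.ne (hC _ h2)
    have a4 : x ≠ y := by
      rintro rfl
      have b1 := hc _ _ (hC _ he)
      have b2 := hc _ _ (hC _ h1)
      have b3 := hc _ _ (hC _ h2)
      revert b1 b2 b3
      cases c u <;> cases c v <;> cases c x <;> simp
    have : ({s(x, z), s(u, v), s(u, x), s(v, y)} : Set (Sym2 V)).ncard = 4 := by
      rw [Set.ncard_insert_of_notMem, show ({s(u, v), s(u, x), s(v, y)} : Set (Sym2 V)).ncard = 3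
        from ?_]
      · rw [Set.ncard_eq_three]
        refine ⟨_, _, _, ?_, ?_, ?_, rfl⟩
        · rw [Ne, Sym2.eq_iff]; tauto
        · rw [Ne, Sym2.eq_iff]; tauto
        · rw [Ne, Sym2.eq_iff]; tauto
      · simp only [Set.mem_insert_iff, Set.mem_singleton_iff, Sym2.eq_iff]
        tauto
    rw [← this]
    refine Set.ncard_le_ncard ?_
    rintro e (rfl | rfl | rfl | rfl)
    exacts [h3, he, h1, h2]

theorem euler2 (h : Mac G) (c : V → Bool) (hc : ∀ u v, G.Adj u v → c u ≠ c v) :
    G.edgeSet.ncard ≤ 2 * Fintype.card V := by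
  classical
  obtain ⟨I, _, F, hF⟩ := h
  set E := G.edgeSet with hE
  have cE : Fintype.card E = E.ncard := by
    rw [← Nat.card_coe_set_eq, Nat.card_eq_fintype_card]
  let J := {i : I // F i ≠ 0}
  have sumE : ∀ g : Sym2 V → Z2, (∀ e, e ∉ E → g e = 0) → ∑ e, g e = ∑ e : E, g e := by
    intro g hg
    rw [← sum_subset (subset_univ E.toFinset) (fun e _ he => hg e (by simpa using he))]
    exact sum_subtype _ (fun x => Set.mem_toFinset) _
  have c1 : 4 * Fintype.card J ≤ 2 * E.ncard := by
    have a1 : 4 * Fintype.card J ≤ ∑ i, {e | F i e ≠ 0}.ncard := by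
      rw [Fintype.card_subtype, mul_comm, ← smul_eq_mul, ← sum_const]
      refine le_trans (sum_le_sum fun i hi =>
        four_le c hc (hF.sub i) (hF.even i) (mem_filter.1 hi).2)
        (sum_le_sum_of_subset (subset_univ _))
    have a2 : ∑ i, {e | F i e ≠ 0}.ncard = ∑ e, {i | F i e ≠ 0}.ncard := by
      simp only [ncard_eq_sum]
      exact sum_comm
    have a3 : ∑ e, {i | F i e ≠ 0}.ncard ≤ 2 * E.ncard := by
      rw [← sum_subset (subset_univ E.toFinset), Set.ncard_eq_toFinset_card', mul_comm,
        ← smul_eq_mul, ← sum_const]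
      · exact sum_le_sum fun e _ => hF.two e
      · intro e _ he
        rw [Set.ncard_eq_zero (Set.toFinite _), Set.eq_empty_iff_forall_notMem]
        intro i hi
        exact he (Set.mem_toFinset.2 (hF.sub i e hi))
    omega
  let Φ : (E → Z2) →ₗ[Z2] (J → Z2) :=
    { toFun := fun a i => ∑ e : E, F i e * a e
      map_add' := fun a b => by ext i; simp [mul_add, sum_add_distrib]
      map_smul' := fun c a => by ext i; simp [mul_sum, mul_left_comm] }
  let δ : (V → Z2) →ₗ[Z2] (E → Z2) :=
    { toFun := fun p e => cob p e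
      map_add' := fun a b => by
        ext ⟨e, he⟩
        induction e using Sym2.ind with
        | h u v => simp only [cob_mk, Pi.add_apply]; ring
      map_smul' := fun c a => by
        ext ⟨e, he⟩
        induction e using Sym2.ind with
        | h u v => simp only [cob_mk, Pi.smul_apply, smul_eq_mul, RingHom.id_apply]; ring }
  have k1 : LinearMap.ker Φ ≤ LinearMap.range δ := by
    intro a ha
    obtain ⟨p, hp⟩ := hF.span (fun e => if h : e ∈ E then a ⟨e, h⟩ else 0) fun i => by
      by_cases hi : F i = 0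
      · simp [hi]
      · rw [sumE _ fun e he => by simp [he]]
        have : Φ a ⟨i, hi⟩ = 0 := by rw [LinearMap.mem_ker.1 ha]; rfl
        rw [← this]
        exact sum_congr rfl fun e _ => by simp
    refine ⟨p, ?_⟩
    ext ⟨e, he⟩
    induction e using Sym2.ind with
    | h u v =>
      have := hp u v he
      rw [dif_pos he] at this
      exact this.symm
  have k2 := LinearMap.finrank_range_le δ
  rw [Module.finrank_fintype_fun_eq_card] at k2
  have k3 := LinearMap.finrank_range_add_finrank_ker Φ
  rw [Module.finrank_fintype_fun_eq_card, cE] at k3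
  have k4 := Submodule.finrank_mono k1
  have := Submodule.finrank_le (LinearMap.range Φ)
  rw [Module.finrank_fintype_fun_eq_card] at this
  omega

end Pool.Agent.MP_92a447_co.H47
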