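import Mathlib

/-! Drawings of graphs in the plane, crossings and planarity. -/

namespace Pool.Agent.MP_92a447_co.H47

open Set

variable {V : Type}

/-- A drawing of `G`: the vertices are distinct points of the plane, every edge `e` is a simple
arc `γ e` on `[0,1]` between the points of its ends, and passes through no other vertex. -/
structure Drawing (G : SimpleGraph V) (pos : V → ℂ) (γ : Sym2 V → ℝ → ℂ) : Prop where
  inj : Function.Injective pos
  cont : ∀ e ∈ G.edgeSet, ContinuousOn (γ e) (Icc 0 1)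
  simple : ∀ e ∈ G.edgeSet, InjOn (γ e) (Icc 0 1)
  ends : ∀ e ∈ G.edgeSet, s(γ e 0, γ e 1) = e.map pos
  avoid : ∀ e ∈ G.edgeSet, ∀ w, pos w ∈ γ e '' Icc 0 1 → w ∈ e

/-- Two different edges of `G` have a common point that is not a vertex. -/
def Cross (G : SimpleGraph V) (pos : V → ℂ) (γ : Sym2 V → ℝ → ℂ) (e f : Sym2 V) : Prop :=
  e ∈ G.edgeSet ∧ f ∈ G.edgeSet ∧ e ≠ f ∧
    ∃ p, p ∈ γ e '' Icc 0 1 ∧ p ∈ γ f '' Icc 0 1 ∧ p ∉ range pos

/-- `G` has a drawing without crossings. -/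
def Planar (G : SimpleGraph V) : Prop :=
  ∃ (pos : V → ℂ) (γ : Sym2 V → ℝ → ℂ), Drawing G pos γ ∧ ∀ e f, ¬ Cross G pos γ e f

end Pool.Agent.MP_92a447_co.H47
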