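import Pool.Agent.MP_92a447_co.H47.Defs

/-! A graph whose edges are of the form `v (f v)` is planar. -/

namespace Pool.Agent.MP_92a447_co.H47

open Set

theorem near (T : Finset ℝ) (a s : ℝ) :
    ∃ ε : ℝ, ε ≠ 0 ∧ ε * s ≤ 0 ∧ ∀ t ∈ T, t ≠ a → 0 < (t - a) * (t - (a + ε)) := by
  have h : ∀ᶠ r in nhdsWithin (0 : ℝ) (Ioi 0), ∀ t ∈ T, t ≠ a → r < |t - a| := by
    refine (Filter.eventually_all_finset T).2 fun t _ => Filter.eventually_all.2 fun h => ?_
    filter_upwards [Ioo_mem_nhdsGT (abs_pos.2 (sub_ne_zero.2 h))] with r hr using hr.2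
  obtain ⟨r, hr, h0⟩ := (h.and self_mem_nhdsWithin).exists
  have h0 : 0 < r := h0
  have key : ∀ ε : ℝ, |ε| = r → ∀ t ∈ T, t ≠ a → 0 < (t - a) * (t - (a + ε)) := by
    intro ε hε t ht hta
    have h1 := hr t ht hta
    have h2 : (t - a) * ε ≤ |t - a| * r := by rw [← hε, ← abs_mul]; exact le_abs_self _
    have h3 : |t - a| * |t - a| = (t - a) * (t - a) := abs_mul_abs_self _
    have h4 : |t - a| * r < |t - a| * |t - a| := mul_lt_mul_of_pos_left h1 (h0.trans h1)
    nlinarith
  rcases le_total 0 s with hs | hs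
  · exact ⟨-r, by linarith, by nlinarith, key _ (by rw [abs_neg, abs_of_pos h0])⟩
  · exact ⟨r, h0.ne', by nlinarith, key _ (abs_of_pos h0)⟩

/-- The pairs `a b` and `c d` do not separate each other on the line. -/
def Q (a b c d : ℝ) : Prop := 0 ≤ (c - a) * (c - b) * ((d - a) * (d - b))

theorem Q.symm {a b c d : ℝ} (h : Q a b c d) : Q c d a b := by
  unfold Q at *; nlinarith [h]

theorem Q.swap {a b c d : ℝ} (h : Q a b c d) : Q b a c d := by
  unfold Q at *; nlinarith [h]

theorem Q.of_eq {a b c d : ℝ} (h : c = a ∨ c = b ∨ d = a ∨ d = b) : Q a b c d := by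
  unfold Q; rcases h with h | h | h | h <;> simp [h]

theorem Q.loop (a c d : ℝ) : Q a a c d :=
  mul_nonneg (mul_self_nonneg _) (mul_self_nonneg _)

theorem sign_tr {x y z : ℝ} (h : 0 < x * y) (h' : 0 ≤ x * z) : 0 ≤ y * z := by
  by_contra hn
  have : (x * y) * (y * z) < 0 := mul_neg_of_pos_of_neg h (not_le.1 hn)
  nlinarith [mul_nonneg h' (mul_self_nonneg y)]

theorem line {V : Type} [DecidableEq V] (S : Finset V) : ∀ f : V → V, ∃ π : V → ℝ, InjOn π S ∧
    ∀ u ∈ S, ∀ v ∈ S, f u ∈ S → f v ∈ S → Q (π u) (π (f u)) (π v) (π (f v)) := by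
  induction S using Finset.strongInduction with
  | H S ih =>
  intro f
  rcases S.eq_empty_or_nonempty with rfl | ⟨v0, hv0⟩
  · exact ⟨0, by simp, by simp⟩
  have ins : ∀ v ∈ S, ∀ (π : V → ℝ) (a s : ℝ), InjOn π (S.erase v) →
      ∃ ε, ε * s ≤ 0 ∧ InjOn (Function.update π v (a + ε)) S ∧
        (∀ w ∈ S, w ≠ v → π w ≠ a → 0 < (π w - a) * (π w - (a + ε))) ∧
        ∀ c ∈ S, ∀ d ∈ S, Q (a + ε) a (Function.update π v (a + ε) c)
          (Function.update π v (a + ε) d) := by
    intro v hv π a s hπ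
    obtain ⟨ε, h1, h2, h3⟩ := near ((S.erase v).image π) a s
    have h4 : ∀ w ∈ S, w ≠ v → π w ≠ a → 0 < (π w - a) * (π w - (a + ε)) := fun w hw hwv =>
      h3 _ (Finset.mem_image_of_mem _ (Finset.mem_erase.2 ⟨hwv, hw⟩))
    have h5 : ∀ w ∈ S, w ≠ v → π w ≠ a + ε := fun w hw hwv e => by
      by_cases e' : π w = a
      · exact h1 (by linarith)
      · have := h4 w hw hwv e'
        rw [e] at this
        simp at this
    have h6 : ∀ w ∈ S, 0 ≤ (Function.update π v (a + ε) w - (a + ε)) *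
        (Function.update π v (a + ε) w - a) := fun w hw => by
      by_cases e : w = v
      · simp [e]
      · rw [Function.update_of_ne e]
        by_cases e' : π w = a
        · simp [e']
        · rw [mul_comm]; exact (h4 w hw e e').le
    refine ⟨ε, h2, fun x hx y hy e => ?_, h4, fun c hc d hd => mul_nonneg (h6 c hc) (h6 d hd)⟩
    by_cases e1 : x = v <;> by_cases e2 : y = v
    · rw [e1, e2]
    · rw [e1, Function.update_self, Function.update_of_ne e2] at e
      exact absurd e.symm (h5 y hy e2)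
    · rw [e2, Function.update_self, Function.update_of_ne e1] at e
      exact absurd e (h5 x hx e1)
    · rw [Function.update_of_ne e1, Function.update_of_ne e2] at e
      exact hπ (Finset.mem_coe.2 (Finset.mem_erase.2 ⟨e1, hx⟩))
        (Finset.mem_coe.2 (Finset.mem_erase.2 ⟨e2, hy⟩)) e
  by_cases hc : ∃ v ∈ S, ∀ u ∈ S, f u = v → u = v
  · obtain ⟨v, hv, hin⟩ := hc
    obtain ⟨π, hπ, hQ⟩ := ih (S.erase v) (Finset.erase_ssubset hv) f
    obtain ⟨ε, -, h1, -, h2⟩ := ins v hv π (π (f v)) 0 hπ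
    have k : ∀ c ∈ S, ∀ d ∈ S, Q (Function.update π v (π (f v) + ε) v)
        (Function.update π v (π (f v) + ε) (f v)) (Function.update π v (π (f v) + ε) c)
          (Function.update π v (π (f v) + ε) d) := fun c hc d hd => by
      by_cases e : f v = v
      · rw [e]; exact Q.loop _ _ _
      · rw [Function.update_self, Function.update_of_ne e]; exact h2 c hc d hd
    refine ⟨_, h1, fun u hu w hw h3 h4 => ?_⟩
    by_cases e1 : u = v
    · rw [e1]; exact k _ hw _ h4
    by_cases e2 : w = v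
    · rw [e2]; exact (k _ hu _ h3).symm
    have e3 : f u ≠ v := fun e => e1 (hin u hu e)
    have e4 : f w ≠ v := fun e => e2 (hin w hw e)
    rw [Function.update_of_ne e1, Function.update_of_ne e2, Function.update_of_ne e3,
      Function.update_of_ne e4]
    exact hQ u (Finset.mem_erase.2 ⟨e1, hu⟩) w (Finset.mem_erase.2 ⟨e2, hw⟩)
      (Finset.mem_erase.2 ⟨e3, h3⟩) (Finset.mem_erase.2 ⟨e4, h4⟩)
  · push Not at hc
    choose! g hg1 hg2 hg3 using hc
    have gi : InjOn g S := fun x hx y hy e => by rw [← hg2 x hx, e, hg2 y hy]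
    have gs : SurjOn g S S := Finset.surjOn_of_injOn_of_card_le g hg1 gi le_rfl
    have fi : ∀ x ∈ S, ∀ y ∈ S, f x = f y → x = y := fun x hx y hy e => by
      obtain ⟨x', hx', rfl⟩ := gs hx
      obtain ⟨y', hy', rfl⟩ := gs hy
      rw [hg2 x' hx', hg2 y' hy'] at e
      rw [e]
    have fs : ∀ x ∈ S, f x ∈ S ∧ f x ≠ x := fun x hx => by
      obtain ⟨x', hx', rfl⟩ := gs hx
      rw [hg2 x' hx']
      exact ⟨hx', (hg3 x' hx').symm⟩
    set v := v0
    set u := g v with hu
    set a := f v with ha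
    have uS := hg1 v hv0
    have fu : f u = v := hg2 v hv0
    have uv : u ≠ v := hg3 v hv0
    have aS : a ∈ S := (fs v hv0).1
    have av : a ≠ v := (fs v hv0).2
    obtain ⟨π, hπ, hQ⟩ := ih (S.erase v) (Finset.erase_ssubset hv0) (Function.update f u a)
    obtain ⟨ε, h0, h1, h3, h2⟩ := ins v hv0 π (π a)
      ((π a - π u) * (π (f a) - π u) * (π (f a) - π a)) hπ
    have pi : ∀ x ∈ S, x ≠ v → x ≠ a → π x ≠ π a := fun x hx e1 e2 e => e2
      (hπ (Finset.mem_coe.2 (Finset.mem_erase.2 ⟨e1, hx⟩))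
        (Finset.mem_coe.2 (Finset.mem_erase.2 ⟨av, aS⟩)) e)
    have fv : ∀ x ∈ S, x ≠ u → f x ≠ v := fun x hx e e' => e (fi x hx u uS (e'.trans fu.symm))
    have k1 : ∀ c ∈ S, ∀ d ∈ S, Q (Function.update π v (π a + ε) v)
        (Function.update π v (π a + ε) a) (Function.update π v (π a + ε) c)
          (Function.update π v (π a + ε) d) := fun c hc d hd => by
      rw [Function.update_self, Function.update_of_ne av]; exact h2 c hc d hd
    have old : ∀ x ∈ S, x ≠ v → ∀ y ∈ S, y ≠ v → y ≠ u →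
        Q (π x) (π (Function.update f u a x)) (π y) (π (f y)) := fun x hx e1 y hy e2 e3 => by
      have := hQ x (Finset.mem_erase.2 ⟨e1, hx⟩) y (Finset.mem_erase.2 ⟨e2, hy⟩)
        (by
          by_cases e : x = u
          · rw [e, Function.update_self]; exact Finset.mem_erase.2 ⟨av, aS⟩
          · rw [Function.update_of_ne e]; exact Finset.mem_erase.2 ⟨fv x hx e, (fs x hx).1⟩)
        (by rw [Function.update_of_ne e3]; exact Finset.mem_erase.2 ⟨fv y hy e3, (fs y hy).1⟩)
      rwa [Function.update_of_ne e3] at this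
    have k2 : ∀ y ∈ S, y ≠ v → y ≠ u → Q (π u) (π a + ε) (π y) (π (f y)) := fun y hy e2 e3 => by
      have o := old u uS uv y hy e2 e3
      rw [Function.update_self] at o
      have e4 : f y ≠ a := fun e => e2 (fi y hy v hv0 e)
      have p1 := h3 _ (fs y hy).1 (fv y hy e3) (pi _ (fs y hy).1 (fv y hy e3) e4)
      unfold Q at o ⊢
      by_cases e5 : y = a
      · rw [e5] at p1 ⊢
        have := sign_tr (z := -(ε * ((π a - π u) * (π (f a) - π u)))) p1 (by nlinarith)
        nlinarith
      · have p2 := h3 _ hy e2 (pi _ hy e2 e5)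
        have q1 := sign_tr (z := (π y - π u) * ((π (f y) - π u) * (π (f y) - π a))) p2
          (by nlinarith)
        have q2 := sign_tr (z := (π y - π u) * (π y - (π a + ε)) * (π (f y) - π u)) p1
          (by nlinarith)
        nlinarith
    refine ⟨_, h1, fun x hx y hy h4 h5 => ?_⟩
    by_cases e1 : x = v
    · rw [e1]; exact k1 _ hy _ h5
    by_cases e2 : y = v
    · rw [e2]; exact (k1 _ hx _ h4).symm
    rw [Function.update_of_ne e1, Function.update_of_ne e2]
    by_cases e3 : x = u <;> by_cases e4 : y = u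
    · exact Q.of_eq (.inl (by rw [e3, e4]))
    · rw [e3, fu, Function.update_self, Function.update_of_ne (fv y hy e4)]
      exact k2 y hy e2 e4
    · rw [e4, fu, Function.update_self, Function.update_of_ne (fv x hx e3)]
      exact (k2 x hx e1 e3).symm
    · rw [Function.update_of_ne (fv x hx e3), Function.update_of_ne (fv y hy e4)]
      have := old x hx e1 y hy e2 e4
      rwa [Function.update_of_ne e3] at this

theorem chord {a b c d t : ℝ} (h : (t - a) * (t - b) = (t - c) * (t - d))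
    (h' : (t - c) * (t - d) < 0) (hQ : Q a b c d) : s(a, b) = s(c, d) := by
  have e : (c - a) * (c - b) * ((d - a) * (d - b)) =
      (c + d - a - b) ^ 2 * ((t - c) * (t - d)) := by
    have e1 : (c - a) * (c - b) = (c + d - a - b) * (c - t) := by linear_combination h
    have e2 : (d - a) * (d - b) = (c + d - a - b) * (d - t) := by linear_combination h
    rw [e1, e2]; ring
  have l : c + d - a - b = 0 := by
    by_contra hn
    have := mul_neg_of_pos_of_neg (pow_pos (abs_pos.2 hn) 2) h'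
    rw [sq_abs, ← e] at this
    exact absurd hQ (not_le.2 this)
  have e1 : (c - a) * (c - b) = 0 := by linear_combination h + (c - t) * l
  rw [Sym2.eq_iff]
  rcases mul_eq_zero.1 e1 with e | e
  · exact .inl ⟨by linarith, by linarith⟩
  · exact .inr ⟨by linarith, by linarith⟩

theorem planar_of_fun {V : Type} [Finite V] (G : SimpleGraph V) (f : V → V)
    (h : ∀ e ∈ G.edgeSet, ∃ v, e = s(v, f v)) : Planar G := by
  classical
  have := Fintype.ofFinite V
  obtain ⟨π, hπ, hQ⟩ := line Finset.univ f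
  have hπ : Function.Injective π := by simpa using hπ
  have : ∀ e : Sym2 V, ∃ v, e ∈ G.edgeSet → e = s(v, f v) := fun e => by
    by_cases he : e ∈ G.edgeSet
    · exact (h e he).imp fun _ h _ => h
    · exact ⟨e.out.1, fun h => absurd h he⟩
  choose x hx using this
  have ne : ∀ e ∈ G.edgeSet, π (x e) ≠ π (f (x e)) := fun e he =>
    hπ.ne (SimpleGraph.Adj.ne (G := G) (by have := hx e he; rwa [this] at he))
  let pos : V → ℂ := fun v => ⟨π v, π v ^ 2⟩
  let γ : Sym2 V → ℝ → ℂ := fun e τ => ((1 - τ : ℝ) : ℂ) * pos (x e) + (τ : ℂ) * pos (f (x e))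
  have re : ∀ e τ, (γ e τ).re = (1 - τ) * π (x e) + τ * π (f (x e)) := fun e τ => by
    simp [γ, pos]
  have im : ∀ e τ, (γ e τ).im = (1 - τ) * π (x e) ^ 2 + τ * π (f (x e)) ^ 2 := fun e τ => by
    simp [γ, pos]
  have q : ∀ e τ, ((γ e τ).re - π (x e)) * ((γ e τ).re - π (f (x e))) =
      (γ e τ).re ^ 2 - (γ e τ).im := fun e τ => by rw [re, im]; ring
  refine ⟨pos, γ, ⟨fun u v e => hπ (congrArg Complex.re e), fun e _ => by fun_prop,
    fun e he τ _ τ' _ h => ?_, fun e he => ?_, ?_⟩, ?_⟩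
  · have := congrArg Complex.re h
    rw [re, re] at this
    exact mul_right_cancel₀ (sub_ne_zero.2 (ne e he).symm) (by linarith)
  · conv_rhs => rw [hx e he]
    simp [γ]
  · rintro e he w ⟨τ, -, h⟩
    have := q e τ
    rw [h] at this
    rw [hx e he, Sym2.mem_iff]
    exact (mul_eq_zero.1 (this.trans (sub_self _))).imp (fun h => hπ (sub_eq_zero.1 h))
      fun h => hπ (sub_eq_zero.1 h)
  · rintro e e' ⟨he, he', hne, p, ⟨τ, -, h1⟩, ⟨τ', hτ, h2⟩, hp⟩
    have q1 := q e τ
    have q2 := q e' τ'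
    rw [h1] at q1
    rw [h2, ← q1] at q2
    have t0 : τ' ≠ 0 := fun h => hp ⟨x e', by rw [← h2, h]; simp [γ]⟩
    have t1 : τ' ≠ 1 := fun h => hp ⟨f (x e'), by rw [← h2, h]; simp [γ]⟩
    have lt : (p.re - π (x e')) * (p.re - π (f (x e'))) < 0 := by
      rw [← h2, re]
      have := mul_pos (mul_pos (lt_of_le_of_ne hτ.1 t0.symm) (sub_pos.2 (lt_of_le_of_ne hτ.2 t1)))
        (mul_self_pos.2 (sub_ne_zero.2 (ne e' he')))
      nlinarith
    have := chord q2.symm lt (hQ _ (by simp) _ (by simp) (by simp) (by simp))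
    refine hne ((hx e he).trans (.trans ?_ (hx e' he').symm))
    exact Sym2.map.injective hπ (by simpa using this)

end Pool.Agent.MP_92a447_co.H47
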