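import Pool.Agent.MP_92a447_co.H47.Radial
import Pool.Agent.MP_92a447_co.H47.Count
import Pool.Agent.MP_92a447_co.H47.Pseudo
import Pool.Agent.MP_31805c_co.H47.MinorMac
import Pool.Agent.MP_31805c_co.H47.Glue

/-! The condition of Hall and the decomposition. -/

namespace Pool.Agent.MP_92a447_co.H47

open Set
open Pool.Agent.MP_31805c_co.H47

variable {V : Type} {G : SimpleGraph V} {pos : V → ℂ} {γ : Sym2 V → ℝ → ℂ}

theorem rad_adj {w w' : V ⊕ Set (Sym2 V)} : (rad G pos γ).Adj w w' ↔ w ≠ w' ∧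
    ((∃ e ∈ G.edgeSet, ∃ u ∈ e, w = .inl u ∧ w' = .inr (cl G pos γ e)) ∨
      ∃ e ∈ G.edgeSet, ∃ u ∈ e, w' = .inl u ∧ w = .inr (cl G pos γ e)) :=
  SimpleGraph.fromRel_adj _ _ _

theorem exists_match [Finite V] (hD : Drawing G pos γ)
    (hm : ∀ e f, cl G pos γ e = cl G pos γ f → e ≠ f → ∀ v ∈ e, v ∉ f) :
    ∃ m : G.edgeSet → V ⊕ Set (Sym2 V), Function.Injective m ∧
      ∀ e, (∃ u ∈ e.1, m e = .inl u) ∨ m e = .inr (cl G pos γ e) := by
  classical
  have := Fintype.ofFinite V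
  have := Fintype.ofFinite (V ⊕ Set (Sym2 V))
  obtain ⟨n, hn⟩ := rad_minor hD hm
  have mac : Mac (rad G pos γ) := minorMac _ _ (grid n) _ (gridMac n) hn
  obtain ⟨en, hen⟩ := exists_en hD
  refine (Fintype.all_card_le_filter_rel_iff_exists_injective fun (e : G.edgeSet)
    (w : V ⊕ Set (Sym2 V)) => (∃ u ∈ e.1, w = .inl u) ∨ w = .inr (cl G pos γ e)).1 fun A => ?_
  set N : Finset (V ⊕ Set (Sym2 V)) := {w | ∃ e ∈ A, (∃ u ∈ e.1, w = .inl u) ∨
    w = .inr (cl G pos γ e)} with hN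
  have m2 : Mac ((rad G pos γ).induce (N : Set _)) := minorMac _ _ _ _ mac
    ⟨fun w => {w.1}, fun w w' h => disjoint_singleton.2 fun e => h (Subtype.ext e),
      fun w x hx y hy => by rw [hx, hy]; exact Relation.ReflTransGen.refl,
      fun w w' h => ⟨_, rfl, _, rfl, h⟩⟩
  have c := euler2 m2 (fun w => w.1.isLeft) (by
    intro u v h
    rcases (rad_adj.1 h).2 with ⟨e, -, x, -, h1, h2⟩ | ⟨e, -, x, -, h1, h2⟩
    · simp [show u.1 = _ from h1, show v.1 = _ from h2]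
    · simp [show v.1 = _ from h1, show u.1 = _ from h2])
  have enm : ∀ e ∈ G.edgeSet, ∀ b, en e b ∈ e := fun e he b => by
    have : en e b ∈ s(en e false, en e true) := by cases b <;> simp
    rwa [← (hen e he).2] at this
  let φ : A × Bool → ((rad G pos γ).induce (N : Set _)).edgeSet := fun q =>
    ⟨s(⟨.inl (en q.1 q.2), by
        simp only [hN, Finset.coe_filter, Finset.mem_univ, true_and]
        exact ⟨q.1, q.1.2, .inl ⟨_, enm _ q.1.1.2 _, rfl⟩⟩⟩,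
      ⟨.inr (cl G pos γ q.1), by
        simp only [hN, Finset.coe_filter, Finset.mem_univ, true_and]
        exact ⟨q.1, q.1.2, .inr rfl⟩⟩),
      rad_adj.2 ⟨Sum.inl_ne_inr,
        .inl ⟨q.1, q.1.1.2, _, enm _ q.1.1.2 _, rfl, rfl⟩⟩⟩
  have hφ : Function.Injective φ := by
    rintro ⟨⟨⟨e, he⟩, hA⟩, b⟩ ⟨⟨⟨f, hf⟩, hA'⟩, b'⟩ h
    have h := congrArg Subtype.val h
    simp only [φ, Sym2.eq_iff, Subtype.mk.injEq, Sum.inl.injEq, Sum.inr.injEq, reduceCtorEq,
      false_and, or_false] at h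
    obtain rfl : e = f := by
      by_contra hn
      exact hm e f h.2 hn _ (enm e he b) (h.1 ▸ enm f hf b')
    obtain rfl : b = b' := by
      have := (hen e he).2
      have ne : en e false ≠ en e true := SimpleGraph.Adj.ne (G := G) (by rwa [this] at he)
      have h1 := h.1
      revert h1
      cases b <;> cases b' <;> simp [ne, ne.symm]
    rfl
  have c2 := Nat.card_le_card_of_injective φ hφ
  rw [Nat.card_coe_set_eq, Nat.card_prod, Nat.card_eq_fintype_card, Nat.card_eq_fintype_card,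
    Fintype.card_coe, Fintype.card_bool] at c2
  have c3 : Fintype.card (N : Set (V ⊕ Set (Sym2 V))) = N.card := by simp
  omega

theorem main [Finite V] (hD : Drawing G pos γ)
    (h : ∀ e f, Relation.TransGen (Cross G pos γ) e f → e ≠ f → ∀ v ∈ e, v ∉ f) :
    ∃ G₁ G₂ : SimpleGraph V, G₁ ⊔ G₂ = G ∧ Disjoint G₁ G₂ ∧ Planar G₁ ∧ Planar G₂ ∧
      ∃ f : V → V, ∀ e ∈ G₂.edgeSet, ∃ v, e = s(v, f v) := by
  classical
  obtain ⟨m, hi, hm⟩ := exists_match hD fun e f hc hne =>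
    h e f ((Relation.reflTransGen_iff_eq_or_transGen.1 (cl_eq.1 hc)).resolve_left hne.symm) hne
  let G₁ : SimpleGraph V := G ⊓ SimpleGraph.fromEdgeSet
    {e | ∃ he : e ∈ G.edgeSet, m ⟨e, he⟩ = .inr (cl G pos γ e)}
  have le : G₁ ≤ G := inf_le_left
  have sub : ∀ e ∈ G₁.edgeSet, e ∈ G.edgeSet := fun e he => SimpleGraph.edgeSet_mono le he
  have : ∀ u : V, ∃ v, ∀ e : G.edgeSet, u ∈ e.1 → m e = .inl u → e.1 = s(u, v) := fun u => by
    by_cases hu : ∃ e : G.edgeSet, u ∈ e.1 ∧ m e = .inl u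
    · obtain ⟨e, h1, h2⟩ := hu
      exact ⟨Sym2.Mem.other h1, fun e' _ h3 => by
        rw [hi (h3.trans h2.symm), Sym2.other_spec]⟩
    · exact ⟨u, fun e h1 h2 => absurd ⟨e, h1, h2⟩ hu⟩
  choose f hf using this
  have key : ∀ e ∈ (G \ G₁).edgeSet, ∃ v, e = s(v, f v) := fun e he => by
    rw [SimpleGraph.edgeSet_sdiff] at he
    rcases hm ⟨e, he.1⟩ with ⟨u, h1, h2⟩ | h1
    · exact ⟨u, hf u _ h1 h2⟩
    · refine absurd ?_ he.2
      rw [SimpleGraph.edgeSet_inf, SimpleGraph.edgeSet_fromEdgeSet]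
      exact ⟨he.1, ⟨he.1, h1⟩, G.not_isDiag_of_mem_edgeSet he.1⟩
  refine ⟨G₁, G \ G₁, sup_sdiff_cancel_right le, disjoint_sdiff_self_right,
    ⟨pos, γ, ⟨hD.inj, fun e he => hD.cont e (sub e he), fun e he => hD.simple e (sub e he),
      fun e he => hD.ends e (sub e he), fun e he => hD.avoid e (sub e he)⟩, ?_⟩,
    planar_of_fun _ f key, f, key⟩
  rintro e e' ⟨he, he', hne, hp⟩
  have hc : Cross G pos γ e e' := ⟨sub e he, sub e' he', hne, hp⟩
  rw [SimpleGraph.edgeSet_inf, SimpleGraph.edgeSet_fromEdgeSet] at he he'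
  obtain ⟨-, ⟨h1, h2⟩, -⟩ := he
  obtain ⟨-, ⟨h3, h4⟩, -⟩ := he'
  exact hne (congrArg Subtype.val (hi (h2.trans ((congrArg _ hc.cl_eq).trans h4.symm))))

end Pool.Agent.MP_92a447_co.H47
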