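import Pool.Agent.MP_92a447_co.H47.Defs
import Pool.Agent.MP_31805c_co.H47.Top

/-! The graph of vertices and crossing components is a minor of a grid. -/

namespace Pool.Agent.MP_92a447_co.H47

open Set
open Pool.Agent.MP_31805c_co.H47

variable {V : Type} {G : SimpleGraph V} {pos : V → ℂ} {γ : Sym2 V → ℝ → ℂ}

theorem Cross.symm {e f : Sym2 V} (h : Cross G pos γ e f) : Cross G pos γ f e := by
  obtain ⟨h1, h2, h3, p, h4, h5, h6⟩ := h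
  exact ⟨h2, h1, h3.symm, p, h5, h4, h6⟩

/-- The crossing component of an edge. -/
def cl (G : SimpleGraph V) (pos : V → ℂ) (γ : Sym2 V → ℝ → ℂ) (e : Sym2 V) : Set (Sym2 V) :=
  {f | Relation.ReflTransGen (Cross G pos γ) e f}

theorem cl_eq {e f : Sym2 V} :
    cl G pos γ e = cl G pos γ f ↔ Relation.ReflTransGen (Cross G pos γ) e f := by
  refine ⟨fun h => (h ▸ (Relation.ReflTransGen.refl : f ∈ cl G pos γ f) : f ∈ cl G pos γ e),
    fun h => ?_⟩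
  have h' : Relation.ReflTransGen (Cross G pos γ) f e := by
    induction h with
    | refl => exact .refl
    | tail _ h ih => exact .head h.symm ih
  exact Set.ext fun g => ⟨fun hg => h'.trans hg, fun hg => h.trans hg⟩

theorem Cross.cl_eq {e f : Sym2 V} (h : Cross G pos γ e f) : cl G pos γ e = cl G pos γ f :=
  H47.cl_eq.2 (.single h)

/-- A vertex is joined to the components that have an edge at the vertex. -/
def rad (G : SimpleGraph V) (pos : V → ℂ) (γ : Sym2 V → ℝ → ℂ) :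
    SimpleGraph (V ⊕ Set (Sym2 V)) :=
  SimpleGraph.fromRel fun w w' => ∃ e ∈ G.edgeSet, ∃ u ∈ e, w = .inl u ∧ w' = .inr (cl G pos γ e)

/-- The two ends of the unit interval. -/
def pt (b : Bool) : ℝ := if b then 1 else 0

theorem exists_en (hD : Drawing G pos γ) : ∃ en : Sym2 V → Bool → V, ∀ e ∈ G.edgeSet,
    (∀ b, γ e (pt b) = pos (en e b)) ∧ e = s(en e false, en e true) := by
  have : ∀ e : Sym2 V, ∃ en : Bool → V, e ∈ G.edgeSet →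
      (∀ b, γ e (pt b) = pos (en b)) ∧ e = s(en false, en true) := by
    intro e
    induction e using Sym2.ind with
    | h x y =>
      by_cases he : s(x, y) ∈ G.edgeSet
      · rcases Sym2.eq_iff.1 ((hD.ends _ he).trans (Sym2.map_mk _ _ _)) with h | h
        · exact ⟨fun b => if b then y else x, fun _ => ⟨by simpa [pt] using h, rfl⟩⟩
        · exact ⟨fun b => if b then x else y, fun _ => ⟨by simpa [pt] using h, Sym2.eq_swap⟩⟩
      · exact ⟨fun _ => x, fun h => absurd h he⟩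
  choose en h using this
  exact ⟨en, h⟩

theorem rad_minor [Finite V] (hD : Drawing G pos γ)
    (hm : ∀ e f, cl G pos γ e = cl G pos γ f → e ≠ f → ∀ v ∈ e, v ∉ f) :
    ∃ n, Minor (rad G pos γ) (grid n) := by
  obtain ⟨en, hen⟩ := exists_en hD
  have pt01 : ∀ b, pt b ∈ Icc (0 : ℝ) 1 := by rintro (_ | _) <;> simp [pt]
  have enm : ∀ e ∈ G.edgeSet, ∀ u, u ∈ e ↔ ∃ b, u = en e b := fun e he u => by
    conv_lhs => rw [(hen e he).2]
    simp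
  have v1 : ∀ e ∈ G.edgeSet, ∀ τ ∈ Icc (0 : ℝ) 1, ∀ w, γ e τ = pos w →
      ∃ b, τ = pt b ∧ w = en e b := fun e he τ hτ w h => by
    obtain ⟨b, rfl⟩ := (enm e he w).1 (hD.avoid e he w ⟨τ, hτ, h⟩)
    exact ⟨b, hD.simple e he hτ (pt01 b) (h.trans ((hen e he).1 b).symm), rfl⟩
  have cpt : ∀ e ∈ G.edgeSet, ∀ s t, 0 ≤ s → t ≤ 1 →
      IsCompact (γ e '' Icc s t) ∧ IsPreconnected (γ e '' Icc s t) := fun e he s t hs ht =>
    have := (hD.cont e he).mono (Icc_subset_Icc hs ht)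
    ⟨isCompact_Icc.image_of_continuousOn this, isPreconnected_Icc.image _ this⟩
  have e1 : ∀ᶠ δ in nhdsWithin (0 : ℝ) (Ioi 0), ∀ e f b, e ∈ G.edgeSet → f ∈ G.edgeSet →
      en e b ∉ f → ∀ τ ∈ Icc (0 : ℝ) 1, dist τ (pt b) ≤ δ → γ e τ ∉ γ f '' Icc 0 1 := by
    refine Filter.eventually_all.2 fun e => Filter.eventually_all.2 fun f =>
      Filter.eventually_all.2 fun b => Filter.eventually_all.2 fun he =>
      Filter.eventually_all.2 fun hf => Filter.eventually_all.2 fun h => ?_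
    have h1 : (γ f '' Icc 0 1)ᶜ ∈ nhds (γ e (pt b)) :=
      (cpt f hf 0 1 le_rfl le_rfl).1.isClosed.isOpen_compl.mem_nhds fun h' =>
        h (hD.avoid f hf _ ((hen e he).1 b ▸ h'))
    obtain ⟨r, hr, h2⟩ := Metric.mem_nhdsWithin_iff.1 (hD.cont e he _ (pt01 b) h1)
    filter_upwards [Ioo_mem_nhdsGT hr] with δ hδ τ hτ h3
    exact h2 ⟨h3.trans_lt hδ.2, hτ⟩
  obtain ⟨δ, far, h0, h1⟩ := (e1.and (Ioo_mem_nhdsGT (by norm_num : (0 : ℝ) < 1 / 2))).exists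
  let lo : Bool → ℝ := fun b => if b then 1 - δ else 0
  let hi : Bool → ℝ := fun b => if b then 1 else δ
  have lo0 : ∀ b, 0 ≤ lo b := by rintro (_ | _) <;> simp [lo]; linarith
  have hi1 : ∀ b, hi b ≤ 1 := by rintro (_ | _) <;> simp [hi]; linarith
  have s01 : ∀ {b τ}, τ ∈ Icc (lo b) (hi b) → τ ∈ Icc (0 : ℝ) 1 := fun h =>
    Icc_subset_Icc (lo0 _) (hi1 _) h
  have m01 : ∀ {τ}, τ ∈ Icc δ (1 - δ) → τ ∈ Icc (0 : ℝ) 1 := fun h =>
    Icc_subset_Icc h0.le (by linarith) h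
  have sd : ∀ {b τ}, τ ∈ Icc (lo b) (hi b) → dist τ (pt b) ≤ δ := by
    rintro (_ | _) τ h <;> simp only [lo, hi, pt, Real.dist_eq, abs_le] at h ⊢ <;>
      simp at h ⊢ <;> constructor <;> linarith [h.1, h.2]
  have sp : ∀ b, pt b ∈ Icc (lo b) (hi b) := by
    rintro (_ | _) <;> simp [lo, hi, pt] <;> linarith
  have su : ∀ {b b' τ}, τ ∈ Icc (lo b) (hi b) → τ ∈ Icc (lo b') (hi b') → b = b' := by
    rintro (_ | _) (_ | _) τ h h' <;> simp [lo, hi] at h h' ⊢ <;> linarith [h.1, h.2, h'.1, h'.2]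
  have sm : ∀ b, ∃ τ ∈ Icc (lo b) (hi b), τ ∈ Icc δ (1 - δ) := by
    rintro (_ | _)
    · exact ⟨δ, by simp [lo, hi, h0.le], le_rfl, by linarith⟩
    · exact ⟨1 - δ, by simp [lo, hi, h0.le], by linarith, le_rfl⟩
  have cov : ∀ τ ∈ Icc (0 : ℝ) 1, τ ∈ Icc δ (1 - δ) ∨ ∃ b, τ ∈ Icc (lo b) (hi b) := fun τ h => by
    rcases le_total τ δ with a | a
    · exact .inr ⟨false, h.1, a⟩
    rcases le_total τ (1 - δ) with a' | a'
    · exact .inl ⟨a, a'⟩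
    · exact .inr ⟨true, a', h.2⟩
  have mp : ∀ e ∈ G.edgeSet, ∀ τ ∈ Icc δ (1 - δ), γ e τ ∉ range pos := by
    rintro e he τ hτ ⟨w, h⟩
    obtain ⟨b, rfl, -⟩ := v1 e he τ (m01 hτ) w h.symm
    cases b <;> simp [pt] at hτ <;> linarith [hτ.1, hτ.2]
  have v2 : ∀ e ∈ G.edgeSet, ∀ b, ∀ τ ∈ Icc (lo b) (hi b), ∀ w, γ e τ = pos w → w = en e b :=
    fun e he b τ hτ w h => by
      obtain ⟨b', rfl, rfl⟩ := v1 e he τ (s01 hτ) w h
      rw [su hτ (sp b')]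
  have far' : ∀ {e f}, Cross G pos γ e f → ∀ b, ∀ τ ∈ Icc (lo b) (hi b),
      γ e τ ∉ γ f '' Icc 0 1 := fun {e f} h b τ hτ =>
    far e f b h.1 h.2.1 (hm e f h.cl_eq h.2.2.1 _ ((enm e h.1 _).2 ⟨b, rfl⟩)) τ (s01 hτ) (sd hτ)
  have same : ∀ e ∈ G.edgeSet, ∀ f ∈ G.edgeSet, ∀ τ ∈ Icc δ (1 - δ), ∀ τ' ∈ Icc (0 : ℝ) 1,
      γ f τ' = γ e τ → cl G pos γ e = cl G pos γ f := fun e he f hf τ hτ τ' hτ' h => by
    by_cases hef : e = f
    · rw [hef]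
    · exact Cross.cl_eq ⟨he, hf, hef, _, ⟨τ, m01 hτ, rfl⟩, ⟨τ', hτ', h⟩, mp e he τ hτ⟩
  let M : Set (Sym2 V) → Set ℂ := fun K =>
    ⋃ e ∈ {e | e ∈ G.edgeSet ∧ cl G pos γ e = K}, γ e '' Icc δ (1 - δ)
  let U : V ⊕ Set (Sym2 V) → Set ℂ := Sum.elim (fun u => {pos u}) M
  let S : V ⊕ Set (Sym2 V) → V ⊕ Set (Sym2 V) → Set ℂ := fun w w' =>
    ⋃ q ∈ {q : Sym2 V × Bool | q.1 ∈ G.edgeSet ∧ w = .inl (en q.1 q.2) ∧
      w' = .inr (cl G pos γ q.1)}, γ q.1 '' Icc (lo q.2) (hi q.2)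
  have chain : ∀ e0 ∈ G.edgeSet, ∀ e, Relation.ReflTransGen (Cross G pos γ) e0 e →
      ∃ t ⊆ M (cl G pos γ e0), γ e0 δ ∈ t ∧ γ e '' Icc δ (1 - δ) ⊆ t ∧ IsPreconnected t := by
    intro e0 he0 e h
    induction h with
    | refl =>
      exact ⟨_, subset_biUnion_of_mem (u := fun e => γ e '' Icc δ (1 - δ)) ⟨he0, rfl⟩,
        ⟨δ, ⟨le_rfl, by linarith⟩, rfl⟩, subset_rfl, (cpt e0 he0 _ _ h0.le (by linarith)).2⟩
    | @tail e f h hc ih =>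
      obtain ⟨t, t1, t2, t3, t4⟩ := ih
      obtain ⟨he, hf, -, p, ⟨τ, hτ, rfl⟩, ⟨τ', hτ', h'⟩, -⟩ := id hc
      have a1 := (cov τ hτ).resolve_right fun ⟨b, hb⟩ => far' hc b τ hb ⟨τ', hτ', h'⟩
      have a2 := (cov τ' hτ').resolve_right fun ⟨b, hb⟩ => far' hc.symm b τ' hb ⟨τ, hτ, h'.symm⟩
      exact ⟨t ∪ γ f '' Icc δ (1 - δ), union_subset t1
        (subset_biUnion_of_mem (u := fun e => γ e '' Icc δ (1 - δ))
          ⟨hf, (cl_eq.2 (h.tail hc)).symm⟩), .inl t2, subset_union_right,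
        t4.union (γ e τ) (t3 ⟨τ, a1, rfl⟩) ⟨τ', a2, h'⟩ (cpt f hf _ _ h0.le (by linarith)).2⟩
  obtain ⟨n, B, hB, hd⟩ := Top.gridify (Sum.elim U fun q : _ × _ => S q.1 q.2)
    (by
      rintro ((u | K) | q)
      · exact isCompact_singleton
      · exact (toFinite _).isCompact_biUnion fun e he => (cpt e he.1 _ _ h0.le (by linarith)).1
      · exact (toFinite _).isCompact_biUnion fun e he => (cpt _ he.1 _ _ (lo0 _) (hi1 _)).1)
    (by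
      rintro ((u | K) | q)
      · exact isPreconnected_singleton
      · rcases (M K).eq_empty_or_nonempty with h | ⟨p, hp⟩
        · exact (show IsPreconnected (M K) from h ▸ isPreconnected_empty)
        obtain ⟨e0, ⟨he0, rfl⟩, -⟩ := mem_iUnion₂.1 hp
        refine isPreconnected_of_forall (γ e0 δ) fun y hy => ?_
        obtain ⟨e, ⟨-, he⟩, hy⟩ := mem_iUnion₂.1 hy
        obtain ⟨t, t1, t2, t3, t4⟩ := chain e0 he0 e (cl_eq.1 he.symm)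
        exact ⟨t, t1, t2, t3 hy, t4⟩
      · refine isPreconnected_of_forall (Sum.elim pos (fun _ => 0) q.1) fun y hy => ?_
        obtain ⟨r, hr, hy⟩ := mem_iUnion₂.1 hy
        refine ⟨_, subset_biUnion_of_mem (u := fun q : Sym2 V × Bool =>
          γ q.1 '' Icc (lo q.2) (hi q.2)) hr, ⟨_, sp _, ?_⟩, hy, (cpt _ hr.1 _ _ (lo0 _) (hi1 _)).2⟩
        rw [hr.2.1]
        exact (hen _ hr.1).1 _)
  refine ⟨n, Top.minor _ (fun u v h => ((SimpleGraph.fromRel_adj _ _ _).1 h).2) ?_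
    (fun u => B (.inl u)) (fun u v => B (.inr (u, v))) (fun _ => hB _) (fun _ _ => hB _)
    (fun u v h => (hd _ _).2 (disjoint_left.2 fun p h1 h2 => ?_))
    (fun u v u' v' h => (hd _ _).2 (disjoint_left.2 fun p h1 h2 => ?_))
    (fun u v w h h' => (hd _ _).2 (disjoint_left.2 fun p h1 h2 => ?_)) ?_⟩
  · rintro _ _ ⟨e, -, u, -, rfl, rfl⟩
    exact Sum.inl_ne_inr
  · rcases u with u | K <;> rcases v with v | K'
    · exact h (congrArg _ (hD.inj (h1.symm.trans h2)))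
    · obtain ⟨e, he, τ, hτ, rfl⟩ := mem_iUnion₂.1 h2
      exact mp e he.1 τ hτ ⟨u, h1.symm⟩
    · obtain ⟨e, he, τ, hτ, rfl⟩ := mem_iUnion₂.1 h1
      exact mp e he.1 τ hτ ⟨v, h2.symm⟩
    · obtain ⟨e, ⟨he, rfl⟩, τ, hτ, rfl⟩ := mem_iUnion₂.1 h1
      obtain ⟨f, ⟨hf, rfl⟩, τ', hτ', h'⟩ := mem_iUnion₂.1 h2
      exact h (congrArg _ (same e he f hf τ hτ τ' (m01 hτ') h'))
  · obtain ⟨⟨e, b⟩, ⟨he, rfl, -⟩, τ, hτ, rfl⟩ := mem_iUnion₂.1 h1
    obtain ⟨⟨f, b'⟩, ⟨hf, rfl, -⟩, τ', hτ', h'⟩ := mem_iUnion₂.1 h2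
    by_cases hef : e = f
    · subst hef
      obtain rfl := hD.simple e he (s01 hτ') (s01 hτ) h'
      exact h (by rw [su hτ hτ'])
    by_cases hp : γ e τ ∈ range pos
    · obtain ⟨w, hw⟩ := hp
      exact h (congrArg _ ((v2 e he b τ hτ w hw.symm).symm.trans
        (v2 f hf b' τ' hτ' w (h'.trans hw.symm))))
    · exact far' ⟨he, hf, hef, _, ⟨τ, s01 hτ, rfl⟩, ⟨τ', s01 hτ', h'⟩, hp⟩ b τ hτ
        ⟨τ', s01 hτ', h'⟩
  · obtain ⟨⟨f, b⟩, ⟨hf, rfl, rfl⟩, τ', hτ', h3⟩ := mem_iUnion₂.1 h2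
    rcases w with w | K
    · exact h (congrArg _ (v2 f hf b τ' hτ' w (h3.trans h1)))
    · obtain ⟨e, ⟨he, rfl⟩, τ, hτ, rfl⟩ := mem_iUnion₂.1 h1
      exact h' (congrArg _ (same e he f hf τ hτ τ' (s01 hτ') h3))
  · rintro _ _ ⟨e, he, u, hu, rfl, rfl⟩
    obtain ⟨b, rfl⟩ := (enm e he u).1 hu
    obtain ⟨τ, t1, t2⟩ := sm b
    simp only [hd, not_disjoint_iff]
    exact ⟨⟨_, rfl, mem_iUnion₂.2 ⟨(e, b), ⟨he, rfl, rfl⟩, _, sp b, (hen e he).1 b⟩⟩,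
      γ e τ, mem_iUnion₂.2 ⟨e, ⟨he, rfl⟩, τ, t2, rfl⟩,
      mem_iUnion₂.2 ⟨(e, b), ⟨he, rfl, rfl⟩, τ, t1, rfl⟩⟩

end Pool.Agent.MP_92a447_co.H47
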